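import Mathlib
import Pool.Agent.Helper53.GD.Irr

set_option autoImplicit false

/-!
# Irreducibility of `b ^ n X ^ q + 1` in the bases without algebraic factorization
-/

namespace Pool.Agent.T2h88.SD

open Polynomial IntermediateField Pool.Agent.Helper53.FF Pool.Agent.Helper53.GD

/-- if `c` is not twice a square then `c ^ (-n)` is not twice a rational square, for odd `n` -/
lemma no_two_sq {c n : ℕ} (hc : 0 < c) (hn : Odd n) (h2 : ∀ k : ℕ, c ≠ 2 * k ^ 2) (w : ℚ)
    (h : 2 * w ^ 2 = 1 / (c : ℚ) ^ n) : False := by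
  obtain ⟨m, rfl⟩ := hn
  have hc0 : (c : ℚ) ≠ 0 := by exact_mod_cast hc.ne'
  have hw0 : w ≠ 0 := by
    rintro rfl
    have : (0 : ℚ) < 1 / (c : ℚ) ^ (2 * m + 1) := by positivity
    rw [← h] at this
    norm_num at this
  -- `2 c` is a square
  have h1 : (1 / (w * (c : ℚ) ^ m)) ^ 2 = ((2 * c : ℕ) : ℚ) := by
    have h3 : 2 * w ^ 2 * (c : ℚ) ^ (2 * m + 1) = 1 := by
      rw [h]; field_simp
    have h4 : (c : ℚ) ^ (2 * m + 1) = (c ^ m) ^ 2 * c := by ring
    rw [h4] at h3
    have h5 : (w * (c : ℚ) ^ m) ^ 2 * (2 * c) = 1 := by linarith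
    have h6 : (w * (c : ℚ) ^ m) ≠ 0 := mul_ne_zero hw0 (pow_ne_zero _ hc0)
    push_cast
    rw [div_pow, one_pow, div_eq_iff (pow_ne_zero _ h6)]
    linarith
  have h2' : IsSquare ((2 * c : ℕ) : ℚ) := ⟨1 / (w * (c : ℚ) ^ m), by rw [← h1]; ring⟩
  rw [Rat.isSquare_natCast_iff] at h2'
  obtain ⟨t, ht⟩ := h2'
  have hev : 2 ∣ t := by
    have : 2 ∣ t * t := ⟨c, ht.symm⟩
    rcases (Nat.prime_two.dvd_mul).1 this with h | h <;> exact h
  obtain ⟨k, rfl⟩ := hev
  apply h2 k
  nlinarith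

/-- `X ^ (2 ^ s) + C ^ 2` is irreducible over the rationals if `C` is not `± 2 w ^ 2` -/
theorem irr_sq {C₀ : ℚ} (hC : C₀ ≠ 0) (h1 : ∀ w : ℚ, 2 * w ^ 2 ≠ C₀) (h2 : ∀ w : ℚ, 2 * w ^ 2 ≠ -C₀)
    (s : ℕ) : Irreducible (X ^ (2 ^ s) - C (-(C₀ ^ 2)) : ℚ[X]) := by
  rcases Nat.eq_zero_or_pos s with hs | hs
  · subst hs
    rw [pow_zero, pow_one]
    exact irreducible_X_sub_C _
  obtain ⟨s, rfl⟩ : ∃ t, s = t + 1 := ⟨s - 1, by omega⟩
  have hpos : 0 < C₀ ^ 2 := by positivity
  have hbase : Irreducible (X ^ 2 - C (-(C₀ ^ 2)) : ℚ[X]) := by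
    apply X_pow_sub_C_irreducible_of_prime Nat.prime_two
    intro b hb
    nlinarith [sq_nonneg b]
  rw [pow_succ]
  apply X_pow_mul_sub_C_irreducible hbase
  intro E _ _ x hx
  have hint : IsIntegral ℚ x := not_not.mp fun h ↦ by
    have h4 := congr_arg degree (hx.symm.trans (dif_neg h))
    rw [degree_X_pow_sub_C (by norm_num), degree_zero] at h4
    exact WithBot.natCast_ne_bot _ h4
  -- `x ^ 2 = - C₀ ^ 2`
  have hx2 : x ^ 2 = algebraMap ℚ E (-(C₀ ^ 2)) := by
    have h3 : aeval x (minpoly ℚ x) = 0 := minpoly.aeval _ _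
    rw [hx] at h3
    simp only [map_sub, map_pow, aeval_X, aeval_C] at h3
    exact sub_eq_zero.1 h3
  -- coordinates
  have hcoord' : ∀ r ∈ Algebra.adjoin ℚ {x}, ∃ u v : ℚ,
      r = algebraMap ℚ E u + algebraMap ℚ E v * x := by
    intro r hr
    induction hr using Algebra.adjoin_induction with
    | mem y hy =>
      rw [Set.mem_singleton_iff] at hy
      exact ⟨0, 1, by rw [hy]; simp⟩
    | algebraMap r => exact ⟨r, 0, by simp⟩
    | add y z hy hz h1 h2 =>
      obtain ⟨u, v, h1⟩ := h1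
      obtain ⟨u', v', h2⟩ := h2
      refine ⟨u + u', v + v', ?_⟩
      rw [h1, h2, map_add, map_add]
      ring
    | mul y z hy hz h1 h2 =>
      obtain ⟨u, v, h1⟩ := h1
      obtain ⟨u', v', h2⟩ := h2
      refine ⟨u * u' - v * v' * C₀ ^ 2, u * v' + v * u', ?_⟩
      rw [h1, h2]
      have h3 : (algebraMap ℚ E u + algebraMap ℚ E v * x) * (algebraMap ℚ E u' + algebraMap ℚ E v' * x) =
          algebraMap ℚ E u * algebraMap ℚ E u' + algebraMap ℚ E v * algebraMap ℚ E v' * x ^ 2 +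
            (algebraMap ℚ E u * algebraMap ℚ E v' + algebraMap ℚ E v * algebraMap ℚ E u') * x := by
        ring
      rw [h3, hx2]
      simp only [map_add, map_sub, map_mul, map_neg, map_pow]
      ring
  have hcoord : ∀ r ∈ ℚ⟮x⟯, ∃ u v : ℚ, r = algebraMap ℚ E u + algebraMap ℚ E v * x := by
    intro r hr
    apply hcoord'
    rw [← IntermediateField.adjoin_simple_toSubalgebra_of_isAlgebraic hint.isAlgebraic]
    exact hr
  have hindep : ∀ u v : ℚ, algebraMap ℚ E u + algebraMap ℚ E v * x = 0 → u = 0 ∧ v = 0 := by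
    intro u v h
    by_cases hv : v = 0
    · rw [hv, map_zero, zero_mul, add_zero] at h
      exact ⟨(map_eq_zero _).1 h, hv⟩
    · exfalso
      have hv' : algebraMap ℚ E v ≠ 0 := fun h0 => hv ((map_eq_zero _).1 h0)
      have h3 : x = algebraMap ℚ E (-u / v) := by
        rw [map_div₀, map_neg, eq_div_iff hv']
        linear_combination h
      rw [h3, ← map_pow] at hx2
      have h4 := (algebraMap ℚ E).injective hx2
      nlinarith [sq_nonneg (-u / v)]
  have key : ∀ (r : E) (e : ℚ), r ∈ ℚ⟮x⟯ → e ^ 2 = 1 → r ^ 2 = algebraMap ℚ E e * x → False := by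
    intro r e hr he h
    obtain ⟨u, v, rfl⟩ := hcoord r hr
    have h3 : algebraMap ℚ E (u ^ 2 - v ^ 2 * C₀ ^ 2) + algebraMap ℚ E (2 * u * v - e) * x = 0 := by
      have h4 : (algebraMap ℚ E u + algebraMap ℚ E v * x) ^ 2 = algebraMap ℚ E u ^ 2 +
          algebraMap ℚ E v ^ 2 * x ^ 2 + 2 * algebraMap ℚ E u * algebraMap ℚ E v * x := by ring
      rw [h4, hx2] at h
      simp only [map_sub, map_mul, map_neg, map_pow, map_ofNat] at h ⊢
      linear_combination h
    obtain ⟨h4, h5⟩ := hindep _ _ h3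
    have h6 : (u - v * C₀) * (u + v * C₀) = 0 := by linarith
    have hv : v ≠ 0 := by
      rintro rfl
      have : e = 0 := by linarith
      rw [this] at he
      norm_num at he
    have he' : e = 1 ∨ e = -1 := by
      have : (e - 1) * (e + 1) = 0 := by linarith
      rcases mul_eq_zero.1 this with h | h
      · left; linarith
      · right; linarith
    have h7 : 2 * v ^ 2 * C₀ = 1 ∨ 2 * v ^ 2 * C₀ = -1 := by
      rcases mul_eq_zero.1 h6 with h | h <;> rcases he' with h' | h'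
      · left
        have : u = v * C₀ := by linarith
        rw [this, h'] at h5
        linarith
      · right
        have : u = v * C₀ := by linarith
        rw [this, h'] at h5
        linarith
      · right
        have : u = -(v * C₀) := by linarith
        rw [this, h'] at h5
        linarith
      · left
        have : u = -(v * C₀) := by linarith
        rw [this, h'] at h5
        linarith
    rcases h7 with h | h
    · apply h1 (1 / (2 * v))
      field_simp
      linarith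
    · apply h2 (1 / (2 * v))
      field_simp
      linarith
  apply irr_two
  · intro r hr
    refine key (r : E) 1 r.2 (by norm_num) ?_
    have := congrArg (fun y : ℚ⟮x⟯ => (y : E)) hr
    simpa using this
  · intro r hr
    refine key (r : E) (-1) r.2 (by norm_num) ?_
    have := congrArg (fun y : ℚ⟮x⟯ => (y : E)) hr
    simpa using this

/-- `X ^ q + b ^ (- n)` is irreducible, for odd `n` and odd-power-free `b ≠ 4 k ^ 4`, if no odd prime
divides both `q` and `n` -/
theorem irr_main {b n q : ℕ} (hb : 2 ≤ b) (hodd : ∀ p : ℕ, p.Prime → p ≠ 2 → ∀ c : ℕ, c ^ p ≠ b)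
    (h4 : ∀ k : ℕ, b ≠ 4 * k ^ 4) (hn : Odd n) (hq : 1 ≤ q)
    (hcop : ∀ p : ℕ, p.Prime → p ∣ q → ¬ p ∣ n) :
    Irreducible (X ^ q - C (((-1 : ℤ) : ℚ) / (b : ℚ) ^ n) : ℚ[X]) := by
  have hbpos : (0 : ℚ) < b := by exact_mod_cast (by omega : 0 < b)
  have habs : |((-1 : ℤ) : ℚ) / (b : ℚ) ^ n| = 1 / (b : ℚ) ^ n := by
    rw [abs_div, abs_of_pos (by positivity : (0 : ℚ) < (b : ℚ) ^ n)]
    simp
  obtain ⟨s, w, hw, rfl⟩ := Nat.exists_eq_two_pow_mul_odd (by omega : q ≠ 0)
  have hnr : ∀ p : ℕ, p.Prime → p ≠ 2 → p ∣ 2 ^ s * w → ∀ (r a : ℚ), |a| = 1 / (b : ℚ) ^ n →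
      r ^ p ≠ a := by
    intro p hp hp2 hpd r a ha h
    exact no_root hb (hodd p hp hp2) hp.ne_zero ((Nat.Prime.coprime_iff_not_dvd hp).2 (hcop p hp hpd))
      ha h
  have h3 : Irreducible (X ^ (2 ^ s) - C (((-1 : ℤ) : ℚ) / (b : ℚ) ^ n) : ℚ[X]) := by
    by_cases hsq : IsSquare b
    · obtain ⟨c, rfl⟩ := hsq
      have hc : 0 < c := by
        rcases Nat.eq_zero_or_pos c with h | h
        · rw [h] at hb; omega
        · exact h
      have hc2 : ∀ k : ℕ, c ≠ 2 * k ^ 2 := by
        intro k hk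
        apply h4 k
        rw [hk]; ring
      have hc0 : (0 : ℚ) < 1 / (c : ℚ) ^ n := by
        have : (0 : ℚ) < c := by exact_mod_cast hc
        positivity
      have := irr_sq (C₀ := 1 / (c : ℚ) ^ n) hc0.ne'
        (fun w hw => no_two_sq hc hn hc2 w hw)
        (fun w hw => by nlinarith [sq_nonneg w]) s
      have e : ((-1 : ℤ) : ℚ) / ((c * c : ℕ) : ℚ) ^ n = -((1 / (c : ℚ) ^ n) ^ 2) := by
        push_cast
        rw [mul_pow, div_pow, one_pow, neg_div]
        congr 2
        ring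
      rw [e]
      exact this
    · apply irr_two
      · intro r hr
        have : (0 : ℚ) < 1 / (b : ℚ) ^ n := by positivity
        rw [Int.cast_neg, Int.cast_one, neg_div] at hr
        nlinarith [sq_nonneg r]
      · intro r hr
        rw [Int.cast_neg, Int.cast_one, neg_div, neg_neg] at hr
        -- `b` would be a square
        have h5 : (|r|⁻¹) ^ 2 = (b : ℚ) ^ n := by
          rw [inv_pow, sq_abs, hr, one_div, inv_inv]
        have hcop2 : Nat.Coprime 2 n := (Nat.coprime_two_left).2 hn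
        obtain ⟨c, hc⟩ := pow_of_pow two_ne_zero hcop2 (by positivity) h5
        exact hsq ⟨c, by rw [← hc]; ring⟩
  rw [mul_comm]
  apply irr_odd (by positivity) h3 hw
  intro p hp hpw r
  have hp2 : p ≠ 2 := by
    rintro rfl
    exact (Nat.not_even_iff_odd.2 hw) (even_iff_two_dvd.2 hpw)
  apply hnr p hp hp2 (Dvd.dvd.mul_left hpw _) r
  rw [abs_mul, abs_neg, abs_pow, abs_neg, abs_one, one_pow, one_mul]
  exact habs

end Pool.Agent.T2h88.SD
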